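import Pool.Agent.R598.PM.Fb

set_option autoImplicit false

namespace Pool.Agent.Results.MP_915581_lc.FilterbaseNotStrongly

open Pool.Agent.W868 Pool.Agent.R598.PM

/-- There is a countable transitive model `M` of ZF with a set `A` that is, in `M`, filterbase
infinite and not strongly filterbase infinite. -/
theorem result : ∃ M : Set ZFSet.{0}, M.Countable ∧ IsZF M ∧ ∃ A ∈ M,
    FBInf M A ∧ ¬ StrongInf M A := Fb.main

end Pool.Agent.Results.MP_915581_lc.FilterbaseNotStrongly
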